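import Pool.Agent.Lib.MP_eee7a8_ag.TB.C70.Homog

/-!
# TAGBR, module ABS: elimination of `v z`
-/

open Matrix

namespace Pool.Agent.Lib.MP_eee7a8_ag.TB.C70

variable {G : Subgroup SLZ} {K : Type} [Field K] [Algebra ℂ K]

theorem ra_le_ri (L : Lam G K) (F : Cusp → Cusp → Prop) : L.RA ≤ L.RI F := fun _ hx =>
  Algebra.subset_adjoin (Or.inl hx)

/-- Absorbing powers of `v z`. -/
theorem absorb (hV : VabsStatement) (L : Lam G K) (hS : IsSurface G) (F : Cusp → Cusp → Prop)
    (z : Cusp) : ∀ (j : ℕ) (l1 : List Cusp) (l2 : List SLZ) (r : K), r ∈ L.RI F →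
    (∀ g ∈ l2, g ∈ G) → 2 * j ≤ l1.length + 2 * l2.length →
    r * (l1.map (L.lam z)).prod * (l2.map (fun g => L.lam z (g • z))).prod * L.v z ^ j ∈
      L.RI F := by
  obtain ⟨hv1, hv2⟩ := hV G K L hS
  have hlam : ∀ a b, L.lam a b ∈ L.RI F := fun a b =>
    ra_le_ri L F (Algebra.subset_adjoin (Or.inl ⟨a, b, fun _ _ h => h.elim, rfl⟩))
  intro j
  induction j with
  | zero =>
    intro l1 l2 r hr hl2 _
    rw [pow_zero, mul_one]
    refine (L.RI F).mul_mem ((L.RI F).mul_mem hr ?_) ?_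
    · apply Subalgebra.list_prod_mem
      intro x hx
      obtain ⟨y, _, rfl⟩ := List.mem_map.1 hx
      exact hlam _ _
    · apply Subalgebra.list_prod_mem
      intro x hx
      obtain ⟨y, _, rfl⟩ := List.mem_map.1 hx
      exact hlam _ _
  | succ j ih =>
    intro l1 l2 r hr hl2 hlen
    cases l2 with
    | cons g l2 =>
      have h := ih l1 l2 (r * (L.v z * L.lam z (g • z)))
        ((L.RI F).mul_mem hr (ra_le_ri L F (hv2 z g (hl2 g (List.mem_cons_self ..)))))
        (fun g' hg' => hl2 g' (List.mem_cons_of_mem _ hg')) (by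
          rw [List.length_cons] at hlen; omega)
      convert h using 1
      rw [List.map_cons, List.prod_cons, pow_succ]
      ring
    | nil =>
      rw [List.length_nil] at hlen
      match l1, hlen with
      | y :: y' :: l1, hlen =>
        have h := ih l1 [] (r * (L.v z * L.lam z y * L.lam z y'))
          ((L.RI F).mul_mem hr (ra_le_ri L F (hv1 z y y'))) hl2 (by
            rw [List.length_cons, List.length_cons] at hlen
            rw [List.length_nil]; omega)
        convert h using 1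
        rw [List.map_cons, List.prod_cons, List.map_cons, List.prod_cons, pow_succ]
        ring
      | [y], hlen => simp at hlen; omega
      | [], hlen => simp at hlen

/-- Elements of the form `r ∏ lam z y ∏ lam z (g z) v^j`. -/
def Shp (L : Lam G K) (F : Cusp → Cusp → Prop) (z : Cusp) (d : Cusp → ℤ) (x : K) : Prop :=
  ∃ (r : K) (l1 : List Cusp) (l2 : List SLZ) (j : ℕ), r ∈ L.RI F ∧ (∀ g ∈ l2, g ∈ G) ∧
    x = r * (l1.map (L.lam z)).prod * (l2.map (fun g => L.lam z (g • z))).prod * L.v z ^ j ∧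
    x ∈ L.Hom d ∧ d z = l1.length + 2 * l2.length - 2 * j

theorem Shp.mul (hGr : GradStatement) {L : Lam G K} (hS : IsSurface G)
    {F : Cusp → Cusp → Prop} {z : Cusp} {d d' : Cusp → ℤ} {x x' : K} (h : Shp L F z d x)
    (h' : Shp L F z d' x') : Shp L F z (d + d') (x * x') := by
  obtain ⟨-, hmul, -⟩ := hGr G K L hS
  obtain ⟨r, l1, l2, j, hr, hl2, hx, hd, hz⟩ := h
  obtain ⟨r', l1', l2', j', hr', hl2', hx', hd', hz'⟩ := h'
  refine ⟨r * r', l1 ++ l1', l2 ++ l2', j + j', (L.RI F).mul_mem hr hr', ?_, ?_,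
    hmul _ _ _ _ hd hd', ?_⟩
  · intro g hg
    rcases List.mem_append.1 hg with h | h
    · exact hl2 g h
    · exact hl2' g h
  · rw [hx, hx', List.map_append, List.prod_append, List.map_append, List.prod_append, pow_add]
    ring
  · rw [Pi.add_apply, hz, hz', List.length_append, List.length_append]
    push_cast
    ring

theorem Shp.of_ri {L : Lam G K} {F : Cusp → Cusp → Prop} {z : Cusp} {d : Cusp → ℤ} {x : K}
    (h : x ∈ L.RI F) (hd : x ∈ L.Hom d) (hz : d z = 0) : Shp L F z d x :=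
  ⟨x, [], [], 0, h, by simp, by simp, hd, by simp [hz]⟩

open Classical in
theorem shp_lam (hGr : GradStatement) (L : Lam G K) (hS : IsSurface G)
    (F : Cusp → Cusp → Prop) (z a b : Cusp) : Shp L F z (ends G a b) (L.lam a b) := by
  obtain ⟨-, -, hlam, -⟩ := hGr G K L hS
  have hR : L.lam a b ∈ L.RI F :=
    ra_le_ri L F (Algebra.subset_adjoin (Or.inl ⟨a, b, fun _ _ h => h.elim, rfl⟩))
  by_cases ha : ∃ g ∈ G, g • z = a
  · obtain ⟨g, hg, rfl⟩ := ha
    by_cases hb : ∃ g' ∈ G, g' • z = b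
    · obtain ⟨g', hg', rfl⟩ := hb
      have e : L.lam (g • z) (g' • z) = L.lam z ((g⁻¹ * g') • z) := by
        rw [← L.inv g hg z ((g⁻¹ * g') • z), mul_smul, smul_inv_smul]
      refine ⟨1, [], [g⁻¹ * g'], 0, (L.RI F).one_mem, ?_, ?_, hlam _ _, ?_⟩
      · intro x hx
        rw [List.mem_singleton] at hx
        rw [hx]
        exact G.mul_mem (G.inv_mem hg) hg'
      · rw [e]; simp
      · unfold ends
        rw [if_pos ⟨g, hg, rfl⟩, if_pos ⟨g', hg', rfl⟩]
        simp
    · have e : L.lam (g • z) b = L.lam z (g⁻¹ • b) := by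
        rw [← L.inv g hg z (g⁻¹ • b), smul_inv_smul]
      refine ⟨1, [g⁻¹ • b], [], 0, (L.RI F).one_mem, by simp, ?_, hlam _ _, ?_⟩
      · rw [e]; simp
      · unfold ends
        rw [if_pos ⟨g, hg, rfl⟩, if_neg hb]
        simp
  · by_cases hb : ∃ g' ∈ G, g' • z = b
    · obtain ⟨g', hg', rfl⟩ := hb
      have e : L.lam a (g' • z) = L.lam z (g'⁻¹ • a) := by
        rw [← L.inv g' hg' z (g'⁻¹ • a), smul_inv_smul, L.symm]
      refine ⟨1, [g'⁻¹ • a], [], 0, (L.RI F).one_mem, by simp, ?_, hlam _ _, ?_⟩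
      · rw [e]; simp
      · unfold ends
        rw [if_neg ha, if_pos ⟨g', hg', rfl⟩]
        simp
    · refine Shp.of_ri hR (hlam _ _) ?_
      unfold ends
      rw [if_neg ha, if_neg hb]
      simp

theorem abs (hV : VabsStatement) (hGr : GradStatement) : AbsStatement := by
  classical
  intro G K _ _ L hS F hF hFne z hz f δ hf hδ hpos
  have hgr := hGr G K L hS
  obtain ⟨hind, hmul, hlam, hinv, hv, hvi, htr, -, -⟩ := hgr
  -- all elements of the multiplicative closure of the generators have the right shape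
  set Y : Set K := (L.gens (fun _ _ => False)) ∪ {x | ∃ a b, F a b ∧ x = (L.lam a b)⁻¹} ∪ {L.v z}
    with hY
  have hle : Algebra.adjoin ℂ ((L.RI F : Set K) ∪ {L.v z}) ≤ Algebra.adjoin ℂ Y := by
    refine Algebra.adjoin_le ?_
    rintro x (hx | hx)
    · have : L.RI F ≤ Algebra.adjoin ℂ Y := by
        refine Algebra.adjoin_le ?_
        rintro y (hy | hy)
        · have : L.RA ≤ Algebra.adjoin ℂ Y := by
            refine Algebra.adjoin_le ?_
            intro t ht
            exact Algebra.subset_adjoin (Or.inl (Or.inl ht))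
          exact this hy
        · exact Algebra.subset_adjoin (Or.inl (Or.inr hy))
      exact this hx
    · exact Algebra.subset_adjoin (Or.inr hx)
  have hshape : ∀ x ∈ Submonoid.closure Y, ∃ d, Shp L F z d x := by
    intro x hx
    induction hx using Submonoid.closure_induction with
    | mem x hx =>
      rcases hx with (hx | hx) | hx
      · rcases hx with ⟨a, b, -, rfl⟩ | ⟨g, hg, hg2, -, rfl⟩
        · exact ⟨_, shp_lam hGr L hS F z a b⟩
        · refine ⟨0, Shp.of_ri (ra_le_ri L F (Algebra.subset_adjoin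
            (Or.inr ⟨g, hg, hg2, fun _ _ h => h.elim, rfl⟩))) (htr g hg hg2) rfl⟩
      · obtain ⟨a, b, hab, rfl⟩ := hx
        refine ⟨-ends G a b, Shp.of_ri (Algebra.subset_adjoin (Or.inr ⟨a, b, hab, rfl⟩))
          (hinv a b (hFne a b hab)) ?_⟩
        have h1 : ¬ ∃ g ∈ G, g • z = a := by
          rintro ⟨g, hg, rfl⟩
          refine (hz (g⁻¹ • b)).1 (hF _ _ _ _ ⟨g⁻¹, G.inv_mem hg, Or.inl ⟨?_, rfl⟩⟩ hab)
          rw [inv_smul_smul]
        have h2 : ¬ ∃ g ∈ G, g • z = b := by
          rintro ⟨g, hg, rfl⟩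
          refine (hz (g⁻¹ • a)).2 (hF _ _ _ _ ⟨g⁻¹, G.inv_mem hg, Or.inl ⟨rfl, ?_⟩⟩ hab)
          rw [inv_smul_smul]
        rw [Pi.neg_apply]
        unfold ends
        rw [if_neg h1, if_neg h2]
        simp
      · rw [Set.mem_singleton_iff] at hx
        subst hx
        refine ⟨-ends G z z, 1, [], [], 1, (L.RI F).one_mem, by simp, by simp, hv z, ?_⟩
        rw [Pi.neg_apply]
        unfold ends
        rw [if_pos ⟨1, G.one_mem, one_smul _ _⟩]
        simp
    | one => exact ⟨0, Shp.of_ri (L.RI F).one_mem (one_mem_hom L) rfl⟩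
    | mul x y _ _ hx hy =>
      obtain ⟨d, hd⟩ := hx
      obtain ⟨d', hd'⟩ := hy
      exact ⟨d + d', hd.mul hGr hS hd'⟩
  have hf2 : f ∈ ⨆ d, Submodule.span ℂ {x | Shp L F z d x} := by
    have h1 : f ∈ Submodule.span ℂ (Submonoid.closure Y : Set K) := by
      rw [← Algebra.adjoin_eq_span]
      exact hle hf
    refine (Submodule.span_le.2 ?_) h1
    intro x hx
    obtain ⟨d, hd⟩ := hshape x hx
    exact Submodule.mem_iSup_of_mem d (Submodule.subset_span hd)
  have hf3 := homog_part hGr L hS (fun d => Submodule.span ℂ {x | Shp L F z d x})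
    (fun d => Submodule.span_le.2 (fun x hx => by
      obtain ⟨_, _, _, _, _, _, _, h, _⟩ := hx
      exact h)) hf2 hδ
  have hfin : Submodule.span ℂ {x | Shp L F z δ x} ≤ Subalgebra.toSubmodule (L.RI F) := by
    refine Submodule.span_le.2 ?_
    rintro x ⟨r, l1, l2, j, hr, hl2, rfl, -, hdz⟩
    refine absorb hV L hS F z j l1 l2 r hr hl2 ?_
    omega
  exact hfin hf3

end Pool.Agent.Lib.MP_eee7a8_ag.TB.C70
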