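import Pool.Agent.Lib.MP_eee7a8_ag.TB.Iface4

/-!
# TAGBR: homogeneous parts (helper70; used by ABS and SK)
-/

open Matrix

namespace Pool.Agent.Lib.MP_eee7a8_ag.TB.C70

variable {G : Subgroup SLZ} {K : Type} [Field K] [Algebra ℂ K]

/-- Homogeneous part: if `f` of degree `δ` lies in the sum of the subspaces `p δ'` of `Hom δ'` then
it lies in `p δ`. -/
theorem homog_part (hG : GradStatement) (L : Lam G K) (hS : IsSurface G)
    (p : (Cusp → ℤ) → Submodule ℂ K) (hp : ∀ δ, p δ ≤ L.Hom δ) {f : K} {δ : Cusp → ℤ}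
    (hf : f ∈ ⨆ d, p d) (hd : f ∈ L.Hom δ) : f ∈ p δ := by
  classical
  obtain ⟨hind, -⟩ := hG G K L hS
  obtain ⟨g, hg, hsum⟩ := (Submodule.mem_iSup_iff_exists_finsupp p f).1 hf
  rw [Finsupp.sum] at hsum
  have h := hind (insert δ g.support) (fun d => g d - if d = δ then f else 0) (by
    intro d _
    split_ifs with h
    · subst h
      exact Submodule.sub_mem _ (hp _ (hg _)) hd
    · rw [sub_zero]
      exact hp _ (hg _)) (by
    rw [Finset.sum_sub_distrib, Finset.sum_ite_eq' (insert δ g.support) δ (fun _ => f),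
      if_pos (Finset.mem_insert_self _ _)]
    by_cases hδ : δ ∈ g.support
    · rw [Finset.insert_eq_of_mem hδ, hsum, sub_self]
    · rw [Finset.sum_insert hδ, Finsupp.notMem_support_iff.1 hδ, hsum]
      simp) δ (Finset.mem_insert_self _ _)
  rw [if_pos rfl, sub_eq_zero] at h
  rw [← h]
  exact hg δ

theorem one_mem_hom (L : Lam G K) : (1 : K) ∈ L.Hom 0 :=
  Submodule.subset_span Lam.HM.one

end Pool.Agent.Lib.MP_eee7a8_ag.TB.C70
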