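import Pool.Agent.Lib.MP_eee7a8_ag.TB.Iface4
import Pool.Agent.Lib.MP_eee7a8_ag.TB.A.Coord
import Pool.Agent.Lib.MP_eee7a8_ag.TB.A.Tri

/-!
# TAGBR, module S03: the sphere with three punctures
-/

open Matrix

namespace Pool.Agent.Lib.MP_eee7a8_ag.TB.C70

section Geo

variable {G : Subgroup SLZ}

/-- Orientation of a triangle. -/
def ori (a b c : Cusp) : ℤ := dt a b * dt b c * dt c a

theorem ori_smul (g : SLZ) (a b c : Cusp) : ori (g • a) (g • b) (g • c) = ori a b c := by
  unfold ori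
  rw [dt_smul, dt_smul, dt_smul]
  have h1 := eps_sq g a
  have h2 := eps_sq g b
  have h3 := eps_sq g c
  linear_combination (eps g b * eps g b * (eps g c * eps g c) * (dt a b * dt b c * dt c a)) * h1 +
    (eps g c * eps g c * (dt a b * dt b c * dt c a)) * h2 + (dt a b * dt b c * dt c a) * h3


/-- If `g` maps the side `xu` of the triangle `u v x` to the side `uy` of the triangle `u v y` on
the other side of `uv` then it maps `v` to the side of `v` with respect to `uy`. -/
theorem same_side {u v x y : Cusp} {g : SLZ} (hgx : g • x = u) (hgu : g • u = y)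
    (hcr : Cross u v x y) : ¬ Cross v (g • v) u y := by
  intro h
  have h1 : ori (g • u) (g • v) (g • x) = ori u v x := ori_smul g u v x
  rw [hgx, hgu] at h1
  unfold ori at h1
  unfold Cross at h hcr
  have e1 : dt y (g • v) = - dt (g • v) y := dt_symm _ _
  have e2 : dt x u = - dt u x := dt_symm _ _
  rw [e1, e2] at h1
  -- h1 : -(dt gv y) * dt gv u * dt u y = - dt u v * dt v x * dt u x
  have hne := (show (dt v u * dt (g • v) u) * (dt v y * dt (g • v) y) < 0 from h)
  have e3 : dt v u = - dt u v := dt_symm _ _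
  rw [e3] at hne
  -- multiply
  have k1 : (dt u v * dt v x * dt u x) = (dt (g • v) y * dt (g • v) u * dt u y) := by linarith
  have k2 : (dt u x * dt v x) * (dt u y * dt v y) * (dt u v * dt u v) =
      - ((-dt u v * dt (g • v) u) * (dt v y * dt (g • v) y)) * (dt u y * dt u y) := by
    linear_combination (dt u v * dt u y * dt v y) * k1
  have p1 : 0 ≤ dt u v * dt u v := mul_self_nonneg _
  have p2 : 0 ≤ dt u y * dt u y := mul_self_nonneg _
  have q1 : (dt u x * dt v x) * (dt u y * dt v y) * (dt u v * dt u v) ≤ 0 :=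
    mul_nonpos_of_nonpos_of_nonneg hcr.le p1
  have q2 : 0 < - ((-dt u v * dt (g • v) u) * (dt v y * dt (g • v) y)) := by linarith
  have huy : dt u y ≠ 0 := by
    intro e
    rw [e] at hcr
    simp at hcr
  have p3 : 0 < dt u y * dt u y := mul_self_pos.2 huy
  have q3 : 0 < - ((-dt u v * dt (g • v) u) * (dt v y * dt (g • v) y)) * (dt u y * dt u y) :=
    mul_pos q2 p3
  linarith

/-- An edge has at most two triangles. -/
theorem two_thirds {ι : Type} {T : Fam ι} (hT : T.NonCross G) {a f c d b : Cusp}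
    (hcd : T.E G c d) (h1 : T.E G a c) (h2 : T.E G a d) (h3 : T.E G f c) (h4 : T.E G f d)
    (hcr : Cross a f c d) (h5 : T.E G b c) (h6 : T.E G b d) : b = a ∨ b = f := by
  by_cases ha : Cross b a c d
  · by_cases hf : Cross b f c d
    · exfalso
      unfold Cross at ha hf hcr
      have k1 : 0 ≤ (dt a c * dt a d * (dt f c * dt f d) * (dt b c * dt b d)) ^ 2 := sq_nonneg _
      have k2 : 0 < (dt a c * dt f c * (dt a d * dt f d)) * (dt b c * dt a c * (dt b d * dt a d)) :=
        mul_pos_of_neg_of_neg hcr ha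
      have k3 := mul_neg_of_pos_of_neg k2 hf
      have k4 : (dt a c * dt f c * (dt a d * dt f d)) * (dt b c * dt a c * (dt b d * dt a d)) *
          (dt b c * dt f c * (dt b d * dt f d)) =
          (dt a c * dt a d * (dt f c * dt f d) * (dt b c * dt b d)) ^ 2 := by ring
      linarith
    · right
      exact hT.third hcd h5 h6 h3 h4 hf
  · left
    exact hT.third hcd h5 h6 h1 h2 ha

/-- The neighbours of a cusp `u` all of whose neighbours between `x` and `g x` are known. -/
theorem nbr {ι : Type} {T : Fam ι} (hT : T.NonCross G) {u v x y : Cusp}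
    {g : SLZ} (hg : g ∈ G) (hgu : g • u = u) (hgx : g • x = y) (hcr : Cross u v x y)
    (hxv : T.E G x v) (hvy : T.E G v y) (c : Cusp) (hc : T.E G u c) :
    ∃ j : ℤ, c = g ^ j • x ∨ c = g ^ j • v := by
  obtain ⟨t, tinj, -, tfix, tcr, -⟩ := coord u
  obtain ⟨hu1, hu2, hu3, hu4, hu5, hu6⟩ := hcr.ne
  obtain ⟨n, -, hn⟩ := tfix g hgu
  have hcu : c ≠ u := fun e => hT.ne' hc e.symm
  have hvu : v ≠ u := hu1.symm
  have hxu : x ≠ u := hu2.symm
  have hyu : y ≠ u := hu3.symm
  have hty : t y = t x + n := by rw [← hgx]; exact (hn x hxu).2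
  have hfix : ∀ j : ℤ, g ^ j • u = u := by
    intro j
    exact (MulAction.stabilizer SLZ u).zpow_mem (show g ∈ MulAction.stabilizer SLZ u from hgu) j
  have hpow : ∀ j : ℤ, ∀ w : Cusp, w ≠ u → g ^ j • w ≠ u ∧ t (g ^ j • w) = t w + j * n := by
    intro j
    induction j using Int.induction_on with
    | zero => intro w hw; rw [zpow_zero, one_smul]; exact ⟨hw, by push_cast; ring⟩
    | succ j ih =>
      intro w hw
      obtain ⟨h1, h2⟩ := ih w hw
      obtain ⟨h3, h4⟩ := hn _ h1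
      have e : g ^ ((j : ℤ) + 1) • w = g • g ^ (j : ℤ) • w := by
        rw [← mul_smul, add_comm, _root_.zpow_one_add]
      rw [e]
      refine ⟨h3, ?_⟩
      rw [h4, h2]; push_cast; ring
    | pred j ih =>
      intro w hw
      obtain ⟨h1, h2⟩ := ih w hw
      have e : g • g ^ (-(j : ℤ) - 1) • w = g ^ (-(j : ℤ)) • w := by
        rw [← mul_smul, ← _root_.zpow_one_add]
        congr 2
        ring
      have h5 : g ^ (-(j : ℤ) - 1) • w ≠ u := by
        intro h
        rw [h, hgu] at e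
        exact h1 e.symm
      refine ⟨h5, ?_⟩
      have h6 := (hn _ h5).2
      rw [e, h2] at h6
      push_cast
      push_cast at h6
      linarith
  have hv := (tcr v x y hvu hxu hyu).1 hcr
  -- move `c` to the fundamental interval
  have key : ∃ j : ℤ, (t x ≤ t (g ^ (-j) • c) ∧ t (g ^ (-j) • c) < t y) ∨
      (t y < t (g ^ (-j) • c) ∧ t (g ^ (-j) • c) ≤ t x) := by
    have hn0 : (n : ℚ) ≠ 0 := by
      intro e
      rw [e, add_zero] at hty
      rw [hty] at hv
      rcases hv with h | h <;> linarith [h.1, h.2]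
    set j : ℤ := ⌊(t c - t x) / n⌋ with hj
    refine ⟨j, ?_⟩
    rw [(hpow (-j) c hcu).2]
    have f1 : (j : ℚ) ≤ (t c - t x) / n := Int.floor_le _
    have f2 : (t c - t x) / n < j + 1 := Int.lt_floor_add_one _
    push_cast
    rcases lt_or_gt_of_ne hn0 with h | h
    · right
      rw [le_div_iff_of_neg h] at f1
      rw [div_lt_iff_of_neg h] at f2
      rw [hty]
      constructor <;> nlinarith
    · left
      rw [le_div_iff₀ h] at f1
      rw [div_lt_iff₀ h] at f2
      rw [hty]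
      constructor <;> nlinarith
  obtain ⟨j, hj⟩ := key
  refine ⟨j, ?_⟩
  set c' := g ^ (-j) • c with hc'
  have hcc : c = g ^ j • c' := by
    rw [hc', ← mul_smul, _root_.zpow_neg, mul_inv_cancel, one_smul]
  have hEc : T.E G u c' := by
    have h := hc.smul (G.zpow_mem hg (-j))
    rw [hfix] at h
    exact h
  have hc'u : c' ≠ u := fun e => hT.ne' hEc e.symm
  have hcase : c' = x ∨ c' = v := by
    by_cases e1 : t c' = t x
    · left; exact tinj _ _ hc'u hxu e1
    by_cases e2 : t c' = t v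
    · right; exact tinj _ _ hc'u hvu e2
    exfalso
    have n1 : ¬ Cross u c' x v := hT.nocross _ _ _ _ hEc hxv
    have n2 : ¬ Cross u c' v y := hT.nocross _ _ _ _ hEc hvy
    rw [tcr c' x v hc'u hxu hvu] at n1
    rw [tcr c' v y hc'u hvu hyu] at n2
    rcases hv with ⟨a1, a2⟩ | ⟨a1, a2⟩ <;> rcases hj with ⟨b1, b2⟩ | ⟨b1, b2⟩
    · have b1' : t x < t c' := lt_of_le_of_ne b1 (Ne.symm e1)
      rcases lt_or_gt_of_ne e2 with h | h
      · exact n1 (Or.inl ⟨b1', h⟩)
      · exact n2 (Or.inl ⟨h, b2⟩)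
    · linarith
    · linarith
    · have b2' : t c' < t x := lt_of_le_of_ne b2 e1
      rcases lt_or_gt_of_ne e2 with h | h
      · exact n2 (Or.inr ⟨b1, h⟩)
      · exact n1 (Or.inr ⟨h, b2'⟩)
  rcases hcase with h | h
  · left; rw [hcc, h]
  · right; rw [hcc, h]

/-- In the situation of `nbr` the cusp `x` is not equivalent to `u` if `v` is not. -/
theorem not_equiv (hNS : NoSwapStatement) (hS : IsSurface G) {ι : Type}
    {T : Fam ι} (hT : T.NonCross G)
    {u v x y : Cusp} {g : SLZ} (hg : g ∈ G) (hgu : g • u = u) (hgx : g • x = y)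
    (hcr : Cross u v x y) (hxv : T.E G x v) (hvy : T.E G v y) (hux : T.E G u x)
    (huv : ∀ k ∈ G, k • u ≠ v) : ∀ k ∈ G, k • u ≠ x := by
  intro k hk hkx
  have h1 : T.E G u (k⁻¹ • u) := by
    have h := hux.symm.smul (G.inv_mem hk)
    rw [← hkx, inv_smul_smul] at h
    exact h
  obtain ⟨j, hj | hj⟩ := nbr hT hg hgu hgx hcr hxv hvy _ h1
  · -- `k g^j` exchanges `u` and `x`
    have hfix : g ^ j • u = u :=
      (MulAction.stabilizer SLZ u).zpow_mem (show g ∈ MulAction.stabilizer SLZ u from hgu) j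
    have e1 : (k * g ^ j) • x = u := by
      rw [mul_smul, ← hj, smul_inv_smul]
    have e2 : (k * g ^ j) • u = x := by
      rw [mul_smul, hfix, hkx]
    exact hT.ne' hux (hNS G hS (k * g ^ j) (G.mul_mem hk (G.zpow_mem hg j)) u x e2 e1)
  · refine huv ((g ^ j)⁻¹ * k⁻¹) (G.mul_mem (G.inv_mem (G.zpow_mem hg j)) (G.inv_mem hk)) ?_
    rw [mul_smul, hj, inv_smul_smul]

open Classical in
theorem ends_same {a b c d : Cusp} (h : SameArc G a b c d) : ends G a b = ends G c d := by
  have key : ∀ {p q : Cusp} {k : SLZ}, k ∈ G → k • p = q → ∀ z,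
      ((∃ g ∈ G, g • z = p) ↔ (∃ g ∈ G, g • z = q)) := by
    intro p q k hk hpq z
    constructor
    · rintro ⟨g, hg, rfl⟩
      exact ⟨k * g, G.mul_mem hk hg, by rw [mul_smul, hpq]⟩
    · rintro ⟨g, hg, rfl⟩
      exact ⟨k⁻¹ * g, G.mul_mem (G.inv_mem hk) hg, by rw [mul_smul, ← hpq, inv_smul_smul]⟩
  funext z
  unfold ends
  obtain ⟨k, hk, ⟨h1, h2⟩ | ⟨h1, h2⟩⟩ := h
  · simp only [key hk h1 z, key hk h2 z]
  · simp only [key hk h1 z, key hk h2 z]
    rw [add_comm]

end Geo

section Alg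

variable {K : Type} [Field K] [Algebra ℂ K]

theorem zmon_aux (S : Subalgebra ℂ K) {A B C : K} (hA : A ≠ 0) (hB : B ≠ 0) (hC : C ≠ 0)
    (mB : B ∈ S) (mC : C ∈ S) (h : B * C / A ∈ S) (k b c : ℕ) :
    A ^ (-(k : ℤ)) * B ^ ((k : ℤ) + b) * C ^ ((k : ℤ) + c) ∈ S := by
  have e : A ^ (-(k : ℤ)) * B ^ ((k : ℤ) + b) * C ^ ((k : ℤ) + c) =
      (B * C / A) ^ k * B ^ b * C ^ c := by
    rw [_root_.zpow_neg, zpow_add₀ hB, zpow_add₀ hC, zpow_natCast, zpow_natCast, zpow_natCast,
      zpow_natCast, zpow_natCast, div_pow, mul_pow]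
    field_simp
  rw [e]
  exact S.mul_mem (S.mul_mem (S.pow_mem h k) (S.pow_mem mB b)) (S.pow_mem mC c)

theorem zmon_mem (S : Subalgebra ℂ K) {A B C : K} (hA : A ≠ 0) (hB : B ≠ 0) (hC : C ≠ 0)
    (mA : A ∈ S) (mB : B ∈ S) (mC : C ∈ S) (h1 : B * C / A ∈ S) (h2 : A * C / B ∈ S)
    (h3 : A * B / C ∈ S) (a b c : ℤ) (hab : 0 ≤ a + b) (hac : 0 ≤ a + c) (hbc : 0 ≤ b + c) :
    A ^ a * B ^ b * C ^ c ∈ S := by
  by_cases ha : a < 0
  · have h := zmon_aux S hA hB hC mB mC h1 (-a).toNat (a + b).toNat (a + c).toNat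
    have e1 : (((-a).toNat : ℕ) : ℤ) = -a := Int.toNat_of_nonneg (by omega)
    have e2 : (((a + b).toNat : ℕ) : ℤ) = a + b := Int.toNat_of_nonneg hab
    have e3 : (((a + c).toNat : ℕ) : ℤ) = a + c := Int.toNat_of_nonneg hac
    rw [e1, e2, e3] at h
    have f1 : - -a = a := by ring
    have f2 : -a + (a + b) = b := by ring
    have f3 : -a + (a + c) = c := by ring
    rw [f1, f2, f3] at h
    exact h
  by_cases hb : b < 0
  · have h := zmon_aux S hB hA hC mA mC h2 (-b).toNat (a + b).toNat (b + c).toNat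
    have e1 : (((-b).toNat : ℕ) : ℤ) = -b := Int.toNat_of_nonneg (by omega)
    have e2 : (((a + b).toNat : ℕ) : ℤ) = a + b := Int.toNat_of_nonneg hab
    have e3 : (((b + c).toNat : ℕ) : ℤ) = b + c := Int.toNat_of_nonneg hbc
    rw [e1, e2, e3] at h
    have f1 : - -b = b := by ring
    have f2 : -b + (a + b) = a := by ring
    have f3 : -b + (b + c) = c := by ring
    rw [f1, f2, f3] at h
    have e : A ^ a * B ^ b * C ^ c = B ^ b * A ^ a * C ^ c := by ring
    rw [e]
    exact h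
  by_cases hc : c < 0
  · have h := zmon_aux S hC hA hB mA mB h3 (-c).toNat (a + c).toNat (b + c).toNat
    have e1 : (((-c).toNat : ℕ) : ℤ) = -c := Int.toNat_of_nonneg (by omega)
    have e2 : (((a + c).toNat : ℕ) : ℤ) = a + c := Int.toNat_of_nonneg hac
    have e3 : (((b + c).toNat : ℕ) : ℤ) = b + c := Int.toNat_of_nonneg hbc
    rw [e1, e2, e3] at h
    have f1 : - -c = c := by ring
    have f2 : -c + (a + c) = a := by ring
    have f3 : -c + (b + c) = b := by ring
    rw [f1, f2, f3] at h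
    have e : A ^ a * B ^ b * C ^ c = C ^ c * A ^ a * B ^ b := by ring
    rw [e]
    exact h
  · obtain ⟨a', rfl⟩ := Int.eq_ofNat_of_zero_le (not_lt.1 ha)
    obtain ⟨b', rfl⟩ := Int.eq_ofNat_of_zero_le (not_lt.1 hb)
    obtain ⟨c', rfl⟩ := Int.eq_ofNat_of_zero_le (not_lt.1 hc)
    rw [zpow_natCast, zpow_natCast, zpow_natCast]
    exact S.mul_mem (S.mul_mem (S.pow_mem mA _) (S.pow_mem mB _)) (S.pow_mem mC _)

end Alg

theorem lam_same' {G : Subgroup SLZ} {K : Type} [Field K] [Algebra ℂ K] (L : Lam G K)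
    {a b c d : Cusp} (h : SameArc G a b c d) : L.lam a b = L.lam c d := by
  obtain ⟨g, hg, ⟨rfl, rfl⟩ | ⟨rfl, rfl⟩⟩ := h
  · rw [L.inv g hg]
  · rw [L.symm, L.inv g hg, L.symm]

open Classical in
theorem s03 (hConn : ConnStatement) (hNS : NoSwapStatement) (hF2 : FixTwoStatement)
    (hNZ : NonzeroStatement) (hGT : GradtStatement) : S03Statement := by
  intro G K _ _ L hS u v hAdm n T hGood hZ f δ hf hδ hpos
  obtain ⟨hsimp, hne⟩ := hAdm (u, v) rfl
  dsimp only at hsimp hne
  have hT := hGood.toIsTri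
  have hN := hT.toNonCross
  obtain ⟨x, y, hux, hvx, huy, hvy, hcr, hz⟩ := hZ
  have huv : T.E G u v := hGood.mem u v ⟨(u, v), rfl, SameArc.refl _ _⟩
  have nux : ¬ SameArc G u v u x := fun h =>
    hGood.nofold v u x ⟨_, rfl, SameArc.rev u v⟩ ⟨_, rfl, h⟩ (hN.ne' hvx) hvx
  have nvx : ¬ SameArc G u v v x := fun h =>
    hGood.nofold u v x ⟨_, rfl, SameArc.refl u v⟩ ⟨_, rfl, h⟩ (hN.ne' hux) hux
  have nuv : ¬ SameArc G u x v x := by
    rintro ⟨k, hk, ⟨h1, h2⟩ | ⟨h1, h2⟩⟩
    · exact hne k hk h1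
    · exact hne (k * k) (G.mul_mem hk hk) (by rw [mul_smul, h1, h2])
  have hne' : ∀ k ∈ G, k • v ≠ u := fun k hk h =>
    hne k⁻¹ (G.inv_mem hk) (by rw [← h, inv_smul_smul])
  obtain ⟨i0, h0⟩ := id huv
  obtain ⟨i1, h1⟩ := id hux
  obtain ⟨i2, h2⟩ := id hvx
  obtain ⟨i3, h3⟩ := id huy
  obtain ⟨i4, h4⟩ := id hvy
  rw [Fam.del_of hT h1, Fam.del_of hT h4, Fam.del_of hT h2, Fam.del_of hT h3] at hz
  have i12 : i1 ≠ i2 := by
    rintro rfl
    exact nuv (h1.symm.trans h2)
  have i01 : i0 ≠ i1 := by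
    rintro rfl
    exact nux (h0.symm.trans h1)
  have i02 : i0 ≠ i2 := by
    rintro rfl
    exact nvx (h0.symm.trans h2)
  have e13 : i1 = i3 := by
    by_contra e13
    have k := congrFun hz i1
    simp only [Pi.sub_apply, Pi.add_apply, Pi.zero_apply, Pi.single_apply] at k
    rw [if_pos trivial, if_neg i12, if_neg e13] at k
    split_ifs at k <;> omega
  have e24 : i2 = i4 := by
    by_contra e24
    have k := congrFun hz i2
    simp only [Pi.sub_apply, Pi.add_apply, Pi.zero_apply, Pi.single_apply] at k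
    rw [← e13, if_pos trivial, if_neg i12.symm, if_neg e24] at k
    omega
  subst e13
  subst e24
  have sux : SameArc G u x u y := h1.symm.trans h3
  have svx : SameArc G v x v y := h2.symm.trans h4
  -- the element fixing `u`
  obtain ⟨g, hg, hgg⟩ := id sux
  have hg1 : g • u = u ∧ g • x = y := by
    rcases hgg with h | ⟨hgu, hgx⟩
    · exact h
    exfalso
    have k1 := same_side hgx hgu hcr
    have k2 : T.E G (g • v) u := by
      have := hvx.smul hg
      rwa [hgx] at this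
    have k3 : T.E G (g • v) y := by
      have := huv.symm.smul hg
      rwa [hgu] at this
    have k4 := hN.third huy huv.symm hvy k2 k3 k1
    exact nvx ((SameArc.symm ⟨g, hg, Or.inl ⟨k4.symm, hgx⟩⟩ : SameArc G v u v x) |>
      fun h => (SameArc.rev u v).trans h)
  obtain ⟨h, hh, hhh⟩ := id svx
  have hh1 : h • v = v ∧ h • x = y := by
    rcases hhh with h' | ⟨hgu, hgx⟩
    · exact h'
    exfalso
    have k1 := same_side hgx hgu (cross_comm_left.1 hcr)
    have k2 : T.E G (h • u) v := by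
      have := hux.smul hh
      rwa [hgx] at this
    have k3 : T.E G (h • u) y := by
      have := huv.smul hh
      rwa [hgu] at this
    have k4 := hN.third hvy huv huy k2 k3 k1
    exact nux (SameArc.symm ⟨h, hh, Or.inl ⟨k4.symm, hgx⟩⟩ : SameArc G u v u x)
  obtain ⟨hgu, hgx⟩ := hg1
  obtain ⟨hhv, hhx⟩ := hh1
  have xu := not_equiv hNS hS hN hg hgu hgx hcr hvx.symm hvy hux hne
  have xv := not_equiv hNS hS hN hh hhv hhx (cross_comm_left.1 hcr) hux.symm huy hvx hne'
  have hxy := hcr.ne.2.2.2.2.2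
  have hgu' : g⁻¹ • u = u := by rw [inv_smul_eq_iff, hgu]
  have hhv' : h⁻¹ • v = v := by rw [inv_smul_eq_iff, hhv]
  have hgy' : g⁻¹ • y = x := by rw [inv_smul_eq_iff, hgx]
  have hhy' : h⁻¹ • y = x := by rw [inv_smul_eq_iff, hhx]
  -- third vertices
  have thA : ∀ c, T.E G u c → T.E G v c → c = x ∨ c = y := fun c hc1 hc2 =>
    two_thirds hN huv hux.symm hvx.symm huy.symm hvy.symm (cross_swap.1 hcr) hc1.symm hc2.symm
  have c1 : T.E G (g⁻¹ • v) u := by
    have := huv.symm.smul (G.inv_mem hg)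
    rwa [hgu'] at this
  have c2 : T.E G (g⁻¹ • v) x := by
    have := hvy.smul (G.inv_mem hg)
    rwa [hgy'] at this
  have thB : ∀ c, T.E G u c → T.E G x c → c = v ∨ c = g⁻¹ • v := by
    intro c hc1 hc2
    refine two_thirds hN hux huv.symm hvx c1 c2 ?_ hc1.symm hc2.symm
    by_contra hcon
    have k := hN.third hux huv.symm hvx c1 c2 hcon
    have k' : g • v = v := by rw [← eq_inv_smul_iff]; exact k
    rcases hF2.1 g u v hgu k' (hN.ne' huv) with e | e
    · rw [e, one_smul] at hgx; exact hxy hgx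
    · rw [e, neg_smul', one_smul] at hgx; exact hxy hgx
  have c3 : T.E G (h⁻¹ • u) v := by
    have := huv.smul (G.inv_mem hh)
    rwa [hhv'] at this
  have c4 : T.E G (h⁻¹ • u) x := by
    have := huy.smul (G.inv_mem hh)
    rwa [hhy'] at this
  have thC : ∀ c, T.E G v c → T.E G x c → c = u ∨ c = h⁻¹ • u := by
    intro c hc1 hc2
    refine two_thirds hN hvx huv hux c3 c4 ?_ hc1.symm hc2.symm
    by_contra hcon
    have k := hN.third hvx huv hux c3 c4 hcon
    have k' : h • u = u := by rw [← eq_inv_smul_iff]; exact k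
    rcases hF2.1 h u v k' hhv (hN.ne' huv) with e | e
    · rw [e, one_smul] at hhx; exact hxy hhx
    · rw [e, neg_smul', one_smul] at hhx; exact hxy hhx
  -- the set of all edges
  set F : Cusp → Cusp → Prop := fun a b =>
    SameArc G u v a b ∨ SameArc G u x a b ∨ SameArc G v x a b with hF
  have Finv : ∀ a b c d, SameArc G a b c d → F a b → F c d := by
    rintro a b c d hs (h | h | h)
    · exact Or.inl (h.trans hs)
    · exact Or.inr (Or.inl (h.trans hs))
    · exact Or.inr (Or.inr (h.trans hs))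
  have Fsymm : ∀ a b, F a b → F b a := fun a b => Finv a b b a (SameArc.rev a b)
  have Fsub : SubE G T F := by
    refine ⟨?_, Finv⟩
    rintro a b (h | h | h)
    · exact huv.same h
    · exact hux.same h
    · exact hvx.same h
  have Fuv : F u v := Or.inl (SameArc.refl _ _)
  have Fux : F u x := Or.inr (Or.inl (SameArc.refl _ _))
  have Fvx : F v x := Or.inr (Or.inr (SameArc.refl _ _))
  have Fuy : F u y := Or.inr (Or.inl sux)
  have Fvy : F v y := Or.inr (Or.inr svx)
  have bA : ∀ c, T.E G u c → T.E G v c → F u c ∧ F v c := by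
    intro c hc1 hc2
    rcases thA c hc1 hc2 with rfl | rfl
    · exact ⟨Fux, Fvx⟩
    · exact ⟨Fuy, Fvy⟩
  have bB : ∀ c, T.E G u c → T.E G x c → F u c ∧ F x c := by
    intro c hc1 hc2
    rcases thB c hc1 hc2 with rfl | rfl
    · exact ⟨Fuv, Fsymm _ _ Fvx⟩
    · refine ⟨Finv u v _ _ ⟨g⁻¹, G.inv_mem hg, Or.inl ⟨hgu', rfl⟩⟩ Fuv,
        Finv y v _ _ ⟨g⁻¹, G.inv_mem hg, Or.inl ⟨hgy', rfl⟩⟩ (Fsymm _ _ Fvy)⟩
  have bC : ∀ c, T.E G v c → T.E G x c → F v c ∧ F x c := by
    intro c hc1 hc2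
    rcases thC c hc1 hc2 with rfl | rfl
    · exact ⟨Fsymm _ _ Fuv, Fsymm _ _ Fux⟩
    · refine ⟨Finv v u _ _ ⟨h⁻¹, G.inv_mem hh, Or.inl ⟨hhv', rfl⟩⟩ (Fsymm _ _ Fuv),
        Finv y u _ _ ⟨h⁻¹, G.inv_mem hh, Or.inl ⟨hhy', rfl⟩⟩ (Fsymm _ _ Fuy)⟩
  have gen : ∀ p q, (∀ c, T.E G p c → T.E G q c → F p c ∧ F q c) → ∀ a b c,
      SameArc G p q a b → T.E G a c → T.E G b c → F a c := by
    rintro p q hb a b c ⟨k, hk, ⟨ha, hb'⟩ | ⟨ha, hb'⟩⟩ hac hbc
    · have k1 : T.E G p (k⁻¹ • c) := by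
        have := hac.smul (G.inv_mem hk)
        rwa [← ha, inv_smul_smul] at this
      have k2 : T.E G q (k⁻¹ • c) := by
        have := hbc.smul (G.inv_mem hk)
        rwa [← hb', inv_smul_smul] at this
      exact Finv _ _ _ _ ⟨k, hk, Or.inl ⟨ha, smul_inv_smul _ _⟩⟩ (hb _ k1 k2).1
    · have k1 : T.E G q (k⁻¹ • c) := by
        have := hac.smul (G.inv_mem hk)
        rwa [← hb', inv_smul_smul] at this
      have k2 : T.E G p (k⁻¹ • c) := by
        have := hbc.smul (G.inv_mem hk)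
        rwa [← ha, inv_smul_smul] at this
      exact Finv _ _ _ _ ⟨k, hk, Or.inl ⟨hb', smul_inv_smul _ _⟩⟩ (hb _ k2 k1).2
  have Fcl : ∀ a b c, F a b → T.E G a c → T.E G b c → F a c := by
    rintro a b c (hs | hs | hs) hac hbc
    · exact gen u v bA a b c hs hac hbc
    · exact gen u x bB a b c hs hac hbc
    · exact gen v x bC a b c hs hac hbc
  have hall := hConn G hS (Fin n) T hT F Fsub ⟨u, v, Fuv⟩ Fcl
  have hidx : ∀ i, i = i0 ∨ i = i1 ∨ i = i2 := by
    intro i
    rcases hall _ _ (T.E_self i) with h | h | h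
    · left; exact (hT.inj i0 i (h0.trans h)).symm
    · right; left; exact (hT.inj i1 i (h1.trans h)).symm
    · right; right; exact (hT.inj i2 i (h2.trans h)).symm
  have huniv : (Finset.univ : Finset (Fin n)) = {i0, i1, i2} := by
    ext i
    simp only [Finset.mem_univ, true_iff, Finset.mem_insert, Finset.mem_singleton]
    exact hidx i
  -- the three functions
  set A := L.lam u v with hA
  set B := L.lam u x with hB
  set C := L.lam v x with hC
  have lA : L.lam (T.s i0) (T.t i0) = A := lam_same' L h0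
  have lB : L.lam (T.s i1) (T.t i1) = B := lam_same' L h1
  have lC : L.lam (T.s i2) (T.t i2) = C := lam_same' L h2
  have lBy : L.lam u y = B := (lam_same' L sux).symm
  have lCy : L.lam v y = C := (lam_same' L svx).symm
  have A0 : A ≠ 0 := hNZ G K L hS u v (hN.ne' huv)
  have B0 : B ≠ 0 := hNZ G K L hS u x (hN.ne' hux)
  have C0 : C ≠ 0 := hNZ G K L hS v x (hN.ne' hvx)
  have mem : ∀ a b, L.lam a b ∈ L.RA := fun a b =>
    Algebra.subset_adjoin (Or.inl ⟨a, b, fun _ _ h => h.elim, rfl⟩)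
  have half : ∀ z ∈ L.RA, ∀ w : K, z = 2 * w → w ∈ L.RA := by
    intro z hz w hw
    have e : w = algebraMap ℂ K (1 / 2) * z := by
      rw [hw, ← mul_assoc, ← map_ofNat (algebraMap ℂ K) 2, ← map_mul]
      norm_num
    rw [e]
    exact L.RA.mul_mem (L.RA.algebraMap_mem _) hz
  have q1 : B * C / A ∈ L.RA := by
    refine half _ (mem x y) _ ?_
    have := L.ptolemy u v x y hcr
    rw [lBy, lCy, ← hA, ← hB, ← hC] at this
    field_simp
    linear_combination this
  have q2 : A * C / B ∈ L.RA := by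
    have hc' : Cross v (g⁻¹ • v) u x := by
      by_contra hcon
      have k := hN.third hux huv.symm hvx c1 c2 hcon
      have k' : g • v = v := by rw [← eq_inv_smul_iff]; exact k
      rcases hF2.1 g u v hgu k' (hN.ne' huv) with e | e
      · rw [e, one_smul] at hgx; exact hxy hgx
      · rw [e, neg_smul', one_smul] at hgx; exact hxy hgx
    refine half _ (mem v (g⁻¹ • v)) _ ?_
    have := L.ptolemy _ _ _ _ hc'
    have e1 : L.lam (g⁻¹ • v) x = C := by
      rw [← hgy', L.inv _ (G.inv_mem hg), lCy]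
    have e2 : L.lam (g⁻¹ • v) u = A := by
      conv_lhs => rw [← hgu']
      rw [L.inv _ (G.inv_mem hg), L.symm]
    rw [e1, e2, L.symm v u, ← hA, ← hB, ← hC] at this
    field_simp
    linear_combination this
  have q3 : A * B / C ∈ L.RA := by
    have hc' : Cross u (h⁻¹ • u) v x := by
      by_contra hcon
      have k := hN.third hvx huv hux c3 c4 hcon
      have k' : h • u = u := by rw [← eq_inv_smul_iff]; exact k
      rcases hF2.1 h u v k' hhv (hN.ne' huv) with e | e
      · rw [e, one_smul] at hhx; exact hxy hhx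
      · rw [e, neg_smul', one_smul] at hhx; exact hxy hhx
    refine half _ (mem u (h⁻¹ • u)) _ ?_
    have := L.ptolemy _ _ _ _ hc'
    have e1 : L.lam (h⁻¹ • u) x = B := by
      rw [← hhy', L.inv _ (G.inv_mem hh), lBy]
    have e2 : L.lam (h⁻¹ • u) v = A := by
      conv_lhs => rw [← hhv']
      rw [L.inv _ (G.inv_mem hh)]
    rw [e1, e2, ← hA, ← hB, ← hC] at this
    field_simp
    linear_combination this
  obtain ⟨p, rfl⟩ := hf
  obtain ⟨-, hdeg⟩ := hGT G K L hS (Fin n) T hT
  have hdeg' := hdeg p δ hδ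
  unfold Lam.ev
  refine L.RA.sum_mem ?_
  intro m hm
  refine L.RA.mul_mem (L.RA.algebraMap_mem _) ?_
  have hd := hdeg' m hm
  have hmon : L.mon T m = A ^ (m i0) * B ^ (m i1) * C ^ (m i2) := by
    unfold Lam.mon
    rw [huniv, Finset.prod_insert, Finset.prod_insert, Finset.prod_singleton, lA, lB, lC, mul_assoc]
    · rw [Finset.mem_singleton]; exact i12
    · rw [Finset.mem_insert, Finset.mem_singleton]
      rintro (h | h)
      · exact i01 h
      · exact i02 h
  have hsum : ∀ z, 0 ≤ m i0 * ends G u v z + m i1 * ends G u x z + m i2 * ends G v x z := by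
    intro z
    have h := hpos z
    rw [← hd] at h
    unfold degT at h
    rw [huniv, Finset.sum_insert, Finset.sum_insert, Finset.sum_singleton, ends_same h0,
      ends_same h1, ends_same h2] at h
    · linarith
    · rw [Finset.mem_singleton]; exact i12
    · rw [Finset.mem_insert, Finset.mem_singleton]
      rintro (h | h)
      · exact i01 h
      · exact i02 h
  have one : ∀ z : Cusp, ∃ g ∈ G, g • z = z := fun z => ⟨1, G.one_mem, one_smul _ _⟩
  have inv1 : ∀ {a b : Cusp}, (∀ k ∈ G, k • a ≠ b) → ¬ ∃ k ∈ G, k • a = b := by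
    rintro a b hk ⟨k, hk1, hk2⟩
    exact hk k hk1 hk2
  have inv2 : ∀ {a b : Cusp}, (∀ k ∈ G, k • a ≠ b) → ¬ ∃ k ∈ G, k • b = a := by
    rintro a b hk ⟨k, hk1, hk2⟩
    exact hk k⁻¹ (G.inv_mem hk1) (by rw [← hk2, inv_smul_smul])
  have s1 := hsum u
  have s2 := hsum v
  have s3 := hsum x
  unfold ends at s1 s2 s3
  rw [if_pos (one u), if_neg (inv1 hne), if_neg (inv1 xu)] at s1
  rw [if_neg (inv2 hne), if_pos (one v), if_neg (inv1 xv)] at s2
  rw [if_neg (inv2 xu), if_neg (inv2 xv), if_pos (one x)] at s3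
  rw [hmon]
  exact zmon_mem L.RA A0 B0 C0 (mem _ _) (mem _ _) (mem _ _) q1 q2 q3 _ _ _ (by linarith)
    (by linarith) (by linarith)


end Pool.Agent.Lib.MP_eee7a8_ag.TB.C70
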