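import Pool.Agent.Lib.MP_eee7a8_ag.TB.C70.Homog

/-!
# TAGBR, module SK: the ring `R_e` is spanned by the functions of the systems
-/

open Matrix

namespace Pool.Agent.Lib.MP_eee7a8_ag.TB.C70

variable {G : Subgroup SLZ} {K : Type} [Field K] [Algebra ℂ K]

/-- Concatenation of words. -/
def wapp (w r : Wd) : Wd := ⟨w.arcs ++ r.arcs, w.els ++ r.els⟩

theorem w_app (L : Lam G K) (w r : Wd) : L.W (wapp w r) = L.W w * L.W r := by
  unfold Lam.W wapp
  simp only [List.map_append, List.prod_append]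
  ring

theorem val_app (w r : Wd) : (wapp w r).val = w.val * r.val := by
  unfold Wd.val wapp
  simp only [List.map_append, List.prod_append]
  ring

theorem len_app (w r : Wd) : (wapp w r).len = w.len + r.len := by
  unfold Wd.len wapp
  simp only [List.length_append]
  omega

theorem ok_app {e : Option (Cusp × Cusp)} {w r : Wd} (hw : w.OK G e) (hr : r.OK G e) :
    (wapp w r).OK G e := by
  refine ⟨?_, ?_, ?_, ?_⟩
  · intro p hp
    rcases List.mem_append.1 hp with h | h
    · exact hw.ne p h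
    · exact hr.ne p h
  · intro p hp
    rcases List.mem_append.1 hp with h | h
    · exact hw.nc p h
    · exact hr.nc p h
  · intro p hp
    rcases List.mem_append.1 hp with h | h
    · exact hw.mem p h
    · exact hr.mem p h
  · intro p hp
    rcases List.mem_append.1 hp with h | h
    · exact hw.ncl p h
    · exact hr.ncl p h

/-- Words equal up to permutation. -/
def WPerm (w w' : Wd) : Prop := w.arcs.Perm w'.arcs ∧ w.els.Perm w'.els

theorem WPerm.w {w w' : Wd} (h : WPerm w w') (L : Lam G K) : L.W w = L.W w' := by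
  unfold Lam.W
  rw [(h.1.map _).prod_eq, (h.2.map _).prod_eq]

theorem WPerm.val {w w' : Wd} (h : WPerm w w') : w.val = w'.val := by
  unfold Wd.val
  rw [(h.1.map _).prod_eq, (h.2.map _).prod_eq]

theorem WPerm.len {w w' : Wd} (h : WPerm w w') : w.len = w'.len := by
  unfold Wd.len
  rw [h.1.length_eq, h.2.length_eq]

theorem WPerm.ok {e : Option (Cusp × Cusp)} {w w' : Wd} (h : WPerm w w') (hw : w.OK G e) :
    w'.OK G e :=
  ⟨fun p hp => hw.ne p (h.1.mem_iff.2 hp), fun p hp => hw.nc p (h.1.mem_iff.2 hp),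
    fun p hp => hw.mem p (h.2.mem_iff.2 hp), fun p hp => hw.ncl p (h.2.mem_iff.2 hp)⟩

theorem ok_left {e : Option (Cusp × Cusp)} {w r : Wd} (h : (wapp w r).OK G e) : w.OK G e :=
  ⟨fun p hp => h.ne p (List.mem_append_left _ hp), fun p hp => h.nc p (List.mem_append_left _ hp),
    fun p hp => h.mem p (List.mem_append_left _ hp),
    fun p hp => h.ncl p (List.mem_append_left _ hp)⟩

theorem ok_right {e : Option (Cusp × Cusp)} {w r : Wd} (h : (wapp w r).OK G e) : r.OK G e :=
  ⟨fun p hp => h.ne p (List.mem_append_right _ hp),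
    fun p hp => h.nc p (List.mem_append_right _ hp),
    fun p hp => h.mem p (List.mem_append_right _ hp),
    fun p hp => h.ncl p (List.mem_append_right _ hp)⟩

theorem rho_pos {g : SLZ} (h : 2 < |g.1.trace|) : 0 < rho g := by
  unfold rho
  have h1 : (0 : ℝ) < |((g.1.trace : ℤ) : ℝ)| := by
    rw [← Int.cast_abs]
    have : (0 : ℤ) < |g.1.trace| := by omega
    exact_mod_cast this
  have h2 := Real.sqrt_nonneg (((g.1.trace : ℤ) : ℝ) ^ 2 - 4)
  linarith

theorem val_pos {e : Option (Cusp × Cusp)} {w : Wd} (h : w.OK G e) : 0 < w.val := by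
  unfold Wd.val
  apply mul_pos
  · apply List.prod_pos
    intro x hx
    obtain ⟨p, hp, rfl⟩ := List.mem_map.1 hx
    rw [abs_pos]
    exact_mod_cast dt_ne_zero (h.ne p hp)
  · apply List.prod_pos
    intro x hx
    obtain ⟨g, hg, rfl⟩ := List.mem_map.1 hx
    exact rho_pos (h.mem g hg).2

/-- The induction order. -/
def Less (w' w : Wd) : Prop := w'.val < w.val ∨ (w'.val = w.val ∧ w'.len < w.len)

theorem step {e : Option (Cusp × Cusp)} (L : Lam G K) (S : Submodule ℂ K) {w w0 r : Wd}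
    (hp : WPerm w (wapp w0 r)) (hw : w.OK G e) (hred : Red G e w0)
    (ih : ∀ w' : Wd, w'.OK G e → Less w' w → L.W w' ∈ S) : L.W w ∈ S := by
  have hr : r.OK G e := ok_right (hp.ok hw)
  have hrp := val_pos hr
  rw [hp.w L, w_app]
  have h := hred K L
  refine Submodule.span_induction (p := fun x _ => x * L.W r ∈ S) ?_ ?_ ?_ ?_ h
  · rintro x ⟨w', hw', hlt, rfl⟩
    rw [← w_app]
    refine ih _ (ok_app hw' hr) ?_
    unfold Less
    rw [hp.val, hp.len, val_app, val_app, len_app, len_app]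
    rcases hlt with h1 | ⟨h1, h2⟩
    · exact Or.inl (mul_lt_mul_of_pos_right h1 hrp)
    · exact Or.inr ⟨by rw [h1], by omega⟩
  · rw [zero_mul]
    exact S.zero_mem
  · intro x y _ _ hx hy
    rw [add_mul]
    exact S.add_mem hx hy
  · intro a x _ hx
    rw [smul_mul_assoc]
    exact S.smul_mem a hx

theorem not_pairwise {α : Type*} {R : α → α → Prop} : ∀ {l : List α}, ¬ l.Pairwise R →
    ∃ a b rest, l.Perm (a :: b :: rest) ∧ ¬ R a b := by
  classical
  intro l
  induction l with
  | nil => intro h; exact absurd List.Pairwise.nil h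
  | cons a l ih =>
    intro h
    rw [List.pairwise_cons] at h
    by_cases h1 : ∀ b ∈ l, R a b
    · have h2 : ¬ l.Pairwise R := fun h2 => h ⟨h1, h2⟩
      obtain ⟨x, y, rest, hp, hR⟩ := ih h2
      refine ⟨x, y, a :: rest, ?_, hR⟩
      refine (hp.cons a).trans ?_
      refine (List.Perm.swap x a (y :: rest)).trans ?_
      exact (List.Perm.swap y a rest).cons x
    · push Not at h1
      obtain ⟨b, hb, hR⟩ := h1
      exact ⟨a, b, l.erase b, (List.perm_cons_erase hb).cons a, hR⟩

theorem words (h1 : Rule1Statement) (h2 : Rule2Statement) (h3 : Rule3Statement)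
    (h4 : Rule4Statement) (h5 : Rule5Statement) (h6 : Rule6Statement) (hK : SknStatement)
    (L : Lam G K) (hS : IsSurface G) (e : Option (Cusp × Cusp)) (he : Adm G e)
    (S : Submodule ℂ K) (hSys : ∀ β : Sys G, SysN G e β → L.IS β ∈ S) (w : Wd)
    (hw : w.OK G e) (ih : ∀ w' : Wd, w'.OK G e → Less w' w → L.W w' ∈ S) : L.W w ∈ S := by
  classical
  by_cases c1 : ∃ p ∈ w.arcs, ∃ q ∈ w.arcs, ∃ g ∈ G, Cross p.1 p.2 (g • q.1) (g • q.2)
  · obtain ⟨p, hp, q, hq, g, hg, hc⟩ := c1
    by_cases hpq : q = p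
    · subst hpq
      have hperm : WPerm w (wapp ⟨[(q.1, q.2)], []⟩ ⟨w.arcs.erase q, w.els⟩) :=
        ⟨List.perm_cons_erase hp, List.Perm.refl _⟩
      have hok := ok_left (hperm.ok hw)
      exact step L S hperm hw (h2 G hS e he q.1 q.2 g hg hok hc) ih
    · have hq' : q ∈ w.arcs.erase p := (List.mem_erase_of_ne hpq).2 hq
      have hperm : WPerm w (wapp ⟨[(p.1, p.2), (q.1, q.2)], []⟩
          ⟨(w.arcs.erase p).erase q, w.els⟩) :=
        ⟨(List.perm_cons_erase hp).trans ((List.perm_cons_erase hq').cons p), List.Perm.refl _⟩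
      have hok := ok_left (hperm.ok hw)
      exact step L S hperm hw (h1 G hS e he p.1 p.2 q.1 q.2 g hg hok hc) ih
  by_cases c2 : ∃ p ∈ w.arcs, ∃ h ∈ w.els, ∃ g ∈ G, side h (g • p.1) * side h (g • p.2) < 0
  · obtain ⟨p, hp, h, hh, g, hg, hc⟩ := c2
    have hperm : WPerm w (wapp ⟨[(p.1, p.2)], [h]⟩ ⟨w.arcs.erase p, w.els.erase h⟩) :=
      ⟨List.perm_cons_erase hp, List.perm_cons_erase hh⟩
    have hok := ok_left (hperm.ok hw)
    exact step L S hperm hw (h3 G hS e he p.1 p.2 h g hg hok hc) ih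
  by_cases c3 : ∃ h ∈ w.els, ∃ k ∈ w.els, ∃ g ∈ G, AxesCross h (g * k * g⁻¹)
  · obtain ⟨h, hh, k, hk, g, hg, hc⟩ := c3
    by_cases hkh : k = h
    · subst hkh
      have hperm : WPerm w (wapp ⟨[], [k]⟩ ⟨w.arcs, w.els.erase k⟩) :=
        ⟨List.Perm.refl _, List.perm_cons_erase hh⟩
      have hok := ok_left (hperm.ok hw)
      exact step L S hperm hw (h5 G hS e he k g hg hok hc) ih
    · have hk' : k ∈ w.els.erase h := (List.mem_erase_of_ne hkh).2 hk
      have hperm : WPerm w (wapp ⟨[], [h, k]⟩ ⟨w.arcs, (w.els.erase h).erase k⟩) :=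
        ⟨List.Perm.refl _, (List.perm_cons_erase hh).trans ((List.perm_cons_erase hk').cons h)⟩
      have hok := ok_left (hperm.ok hw)
      exact step L S hperm hw (h4 G hS e he h k g hg hok hc) ih
  by_cases c4 : w.els.Pairwise (fun h k => ∀ l ∈ G, ∀ g ∈ G, ∀ i j : ℕ, 1 ≤ i → 1 ≤ j →
      ¬ ((h = l ^ i ∨ h = -l ^ i) ∧ (g * k * g⁻¹ = l ^ j ∨ g * k * g⁻¹ = -l ^ j ∨
      g * k * g⁻¹ = (l⁻¹) ^ j ∨ g * k * g⁻¹ = -(l⁻¹) ^ j)))
  · obtain ⟨β, hβ, hW⟩ := hK G hS e he w hw (fun p hp q hq g hg hc => c1 ⟨p, hp, q, hq, g, hg, hc⟩)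
      (fun p hp h hh g hg hc => c2 ⟨p, hp, h, hh, g, hg, hc⟩)
      (fun h hh k hk g hg hc => c3 ⟨h, hh, k, hk, g, hg, hc⟩) c4
    rw [hW K L]
    exact hSys β hβ
  · obtain ⟨h, k, rest, hp, hR⟩ := not_pairwise c4
    push Not at hR
    obtain ⟨l, hl, g, hg, i, j, hi, hj, hh, hk⟩ := hR
    have hperm : WPerm w (wapp ⟨[], [h, k]⟩ ⟨w.arcs, rest⟩) := ⟨List.Perm.refl _, hp⟩
    have hok := ok_left (hperm.ok hw)
    exact step L S hperm hw (h6 G hS e he l hl g hg i j h k hi hj hh hk hok) ih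

theorem all_words (h1 : Rule1Statement) (h2 : Rule2Statement) (h3 : Rule3Statement)
    (h4 : Rule4Statement) (h5 : Rule5Statement) (h6 : Rule6Statement) (hWf : WfvStatement)
    (hK : SknStatement)
    (L : Lam G K) (hS : IsSurface G) (e : Option (Cusp × Cusp)) (he : Adm G e)
    (S : Submodule ℂ K) (hSys : ∀ β : Sys G, SysN G e β → L.IS β ∈ S) (w : Wd)
    (hw : w.OK G e) : L.W w ∈ S := by
  classical
  set V : ℝ → Set ℝ := fun C => {v : ℝ | v ≤ C ∧ ∃ w : Wd, (∀ p ∈ w.arcs, p.1 ≠ p.2) ∧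
    (∀ g ∈ w.els, 2 < |g.1.trace|) ∧ v = w.val} with hV
  have key : ∀ n : ℕ, ∀ k : ℕ, ∀ w : Wd, w.OK G e → (V w.val).ncard = n → w.len = k →
      L.W w ∈ S := by
    intro n
    induction n using Nat.strong_induction_on with
    | _ n ihn =>
      intro k
      induction k using Nat.strong_induction_on with
      | _ k ihk =>
        intro w hw hn hk
        refine words h1 h2 h3 h4 h5 h6 hK L hS e he S hSys w hw ?_
        rintro w' hw' (hlt | ⟨heq, hlen⟩)
        · refine ihn (V w'.val).ncard ?_ w'.len w' hw' rfl rfl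
          rw [← hn]
          refine Set.ncard_lt_ncard ?_ (hWf w.val)
          refine ⟨fun v hv => ⟨hv.1.trans hlt.le, hv.2⟩, fun hsub => ?_⟩
          have hmem : w.val ∈ V w.val := ⟨le_refl _, w, hw.ne, fun g hg => (hw.mem g hg).2, rfl⟩
          exact absurd (hsub hmem).1 (not_le.2 hlt)
        · exact ihk w'.len (by omega) w' hw' (by rw [heq]; exact hn) rfl
  exact key _ _ w hw rfl rfl

theorem sk (h1 : Rule1Statement) (h2 : Rule2Statement) (h3 : Rule3Statement)
    (h4 : Rule4Statement) (h5 : Rule5Statement) (h6 : Rule6Statement) (hWf : WfvStatement)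
    (hK : SknStatement) (hGr : GradStatement) : SkStatement := by
  classical
  intro G K _ _ L hS e he y δ hy hδ
  obtain ⟨-, -, -, -, -, -, -, hIS, -⟩ := hGr G K L hS
  set p : (Cusp → ℤ) → Submodule ℂ K := fun δ =>
    Submodule.span ℂ {z : K | ∃ β : Sys G, SysN G e β ∧ β.deg = δ ∧ z = L.IS β} with hp
  have hple : ∀ δ, p δ ≤ L.Hom δ := by
    intro δ
    refine Submodule.span_le.2 ?_
    rintro x ⟨β, -, rfl, rfl⟩
    exact hIS β
  have hSys : ∀ β : Sys G, SysN G e β → L.IS β ∈ ⨆ d, p d := fun β hβ =>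
    Submodule.mem_iSup_of_mem β.deg (Submodule.subset_span ⟨β, hβ, rfl, rfl⟩)
  have hcl : ∀ x ∈ Submonoid.closure (L.gens (Ge G e)), x = 0 ∨
      ∃ w : Wd, w.OK G e ∧ x = L.W w := by
    intro x hx
    induction hx using Submonoid.closure_induction with
    | mem x hx =>
      rcases hx with ⟨a, b, hab, rfl⟩ | ⟨g, hg, hg2, hg3, rfl⟩
      · by_cases h : a = b
        · left
          rw [h, L.self]
        · right
          refine ⟨⟨[(a, b)], []⟩, ⟨?_, ?_, ?_, ?_⟩, ?_⟩
          · intro p hp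
            rw [List.mem_singleton] at hp
            rw [hp]; exact h
          · intro p hp
            rw [List.mem_singleton] at hp
            rw [hp]; exact hab
          · intro g hg
            simp at hg
          · intro g hg
            simp at hg
          · simp [Lam.W]
      · right
        refine ⟨⟨[], [g]⟩, ⟨?_, ?_, ?_, ?_⟩, ?_⟩
        · intro p hp
          simp at hp
        · intro p hp
          simp at hp
        · intro p hp
          rw [List.mem_singleton] at hp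
          rw [hp]; exact ⟨hg, hg2⟩
        · intro p hp
          rw [List.mem_singleton] at hp
          rw [hp]; exact hg3
        · simp [Lam.W]
    | one =>
      right
      refine ⟨⟨[], []⟩, ⟨?_, ?_, ?_, ?_⟩, ?_⟩ <;> simp [Lam.W]
    | mul x y _ _ hx hy =>
      rcases hx with rfl | ⟨w, hw, rfl⟩
      · left; rw [zero_mul]
      rcases hy with rfl | ⟨w', hw', rfl⟩
      · left; rw [mul_zero]
      right
      exact ⟨wapp w w', ok_app hw hw', (w_app L w w').symm⟩
  have hy2 : y ∈ ⨆ d, p d := by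
    have h : y ∈ Submodule.span ℂ (Submonoid.closure (L.gens (Ge G e)) : Set K) := by
      rw [← Algebra.adjoin_eq_span]
      exact hy
    refine (Submodule.span_le.2 ?_) h
    intro x hx
    rcases hcl x hx with rfl | ⟨w, hw, rfl⟩
    · exact Submodule.zero_mem _
    · exact all_words h1 h2 h3 h4 h5 h6 hWf hK L hS e he _ hSys w hw
  exact homog_part hGr L hS p hple hy2 hδ

end Pool.Agent.Lib.MP_eee7a8_ag.TB.C70
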